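import Pool.Agent.J4H31.A23
import Pool.Agent.N786.D.Siz

/-!
# A sub-Weyl bound for Hecke L-functions of totally real fields of every degree

Let `K` be a totally real number field, of any degree `n ≥ 1`.  A primitive, unitary, normalised Hecke
character of `K` of conductor `𝔣` and infinity type `ν` (real numbers `ν_w` with `∑ ν_w = 0`, one for
each infinite place `w`; arbitrary signs at the real places) is given by its values `ψ(𝔞)` on the
ideals.  Its L-function `L(s, ψ) = ∑ ψ(𝔞) N(𝔞)^(-s)` is entire if `𝔣 ≠ (1)`, and its degree over `ℚ`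
is `n`.

Let `𝔭` be a prime ideal of degree one, unramified over the prime number `p ≥ 7`, and let
`𝔣 = 𝔠 𝔭^k` with `𝔠` prime to `𝔭` and `k ≥ 1`.  We prove, without any hypothesis:

  `|L(1/2 + it, ψ)| ≤ C N(𝔠)^2 (p k)^5 (p^k)^(19/116)`   for `|t| ≤ T`, `|ν_w| ≤ V`,

where `C` depends only on `K`, `T` and `V`; it does not depend on `p`, `𝔭`, `k`, `𝔠`, `ψ`.  As the
conductor of `L(s, ψ)` is `|D| N(𝔠) p^k` (`D` the discriminant of `K`), the exponents of the convexity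
bound and of the Weyl bound are `1/4` and `1/6`; `19/116 < 1/6`.  There are many such characters: for
`V ≥ V₀` there are at least `c p^k V^(n-1)` of them with `𝔠 = (1)` and `|ν_w| ≤ V`.

If `K/ℚ` is cyclic of degree `n` and `p` splits completely in `K`, and `p` does not divide `N(𝔠)`, then
`L(s, ψ)` is the standard L-function of a cuspidal automorphic representation `π` of `GL_n` over
`ℚ` (automorphic induction, Arthur and Clozel), of finite conductor `|D| N(𝔠) p^k`; totally real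
cyclic fields exist in every degree.  So this is a bound towards the Lindelöf hypothesis on
`GL_m`, `m ≥ 1` arbitrary, beyond the Weyl exponent, for families of cuspidal representations of
`GL_m` whose conductor tends to infinity in the depth aspect (this paragraph is a remark and is not
part of the formal statement).

Proof.  Write `L(s, ψ)` as a Mellin transform of theta functions
`θ(y) = ∑ ψ(x) exp(-π ∑ y_w x_w²)`, the sum being over the elements `x` of an ideal, averaged over the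
units.  For a suitable choice of the units the `y_w` are all of the same size, and the sum is over the
points of a lattice of dimension `n` in a box of side `(p^k)^(1/(2n))` only; thus no sum over one
variable is long enough for the classical theory.  But `𝓞_K/𝔭^k = ℤ/p^k`, so `ψ` is a function
`x ↦ χ(ℓ(x))` on the lattice, where `ℓ` is a linear form mod `p^k` and `χ` is a primitive Dirichlet
character mod `p^k`.  Such sums are estimated by `p`-adic analogues of the Weyl-van der Corput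
differencing and of the Poisson summation formula over the lattice, with Gaussian weights: several
differencing steps with shifts in the sublattices `{x : ℓ(x) ≡ 0 mod p^a}`, which are known only through
their covolume; the balance of the shifts, the dual lattice, and a reflection argument replace the
information on the successive minima.
-/

set_option autoImplicit false

open Complex NumberField

namespace Pool.Agent.J4H31.Old.SubWeylHeckeEveryDegree

section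

variable (K : Type) [Field K] [NumberField K]

/-- `x` is totally positive. -/
def TotPos (x : 𝓞 K) : Prop := ∀ σ : K →+* ℝ, 0 < σ (x : K)

/-- `∏_w |x|_w^(i ν_w)`, the product being over the infinite places of `K`. -/
noncomputable def arch (ν : InfinitePlace K → ℝ) (x : K) : ℂ :=
  Complex.exp (Complex.I * ((∑ w, ν w * Real.log (w x) : ℝ) : ℂ))

/-- `ψ`, as a function on the ideals of the totally real field `K` (zero on the ideals which are not
prime to `𝔣`), is a primitive unitary Hecke character of finite conductor `𝔣` and infinity type `ν`,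
with arbitrary signs at the real places. -/
structure IsHecke (𝔣 : Ideal (𝓞 K)) (ν : InfinitePlace K → ℝ) (ψ : Ideal (𝓞 K) →*₀ ℂ) : Prop where
  ne_bot : 𝔣 ≠ ⊥
  supp : ∀ 𝔞 : Ideal (𝓞 K), 𝔞 ≠ ⊥ → (ψ 𝔞 ≠ 0 ↔ IsCoprime 𝔞 𝔣)
  ray : ∀ x : 𝓞 K, x - 1 ∈ 𝔣 → TotPos K x → ψ (Ideal.span {x}) = arch K ν (x : K)
  prim : ∀ 𝔤 : Ideal (𝓞 K), 𝔤 ∣ 𝔣 → 𝔤 ≠ 𝔣 → ∃ x : 𝓞 K, x - 1 ∈ 𝔤 ∧ TotPos K x ∧
    IsCoprime (Ideal.span {x}) 𝔣 ∧ ψ (Ideal.span {x}) ≠ arch K ν (x : K)

/-- All primitive Hecke characters of conductor `𝔣` whose infinity type `ν` is normalised by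
`∑ ν_w = 0` and lies in the box `|ν_w| ≤ V`. -/
def family (𝔣 : Ideal (𝓞 K)) (V : ℝ) : Set (Ideal (𝓞 K) →*₀ ℂ) :=
  {ψ | ∃ ν : InfinitePlace K → ℝ, (∀ w, |ν w| ≤ V) ∧ ∑ w, ν w = 0 ∧ IsHecke K 𝔣 ν ψ}

variable {K}

/-- `F` is the (entire) L-function of `ψ`. -/
def IsL (ψ : Ideal (𝓞 K) →*₀ ℂ) (F : ℂ → ℂ) : Prop :=
  Differentiable ℂ F ∧ ∀ s : ℂ, 1 < s.re →
    HasSum (fun 𝔞 : Ideal (𝓞 K) => ψ 𝔞 * ((Ideal.absNorm 𝔞 : ℕ) : ℂ) ^ (-s)) (F s)

/-- `𝔭` is a prime ideal of degree one, unramified over the prime number `p`. -/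
structure DegreeOne (p : ℕ) (𝔭 : Ideal (𝓞 K)) : Prop where
  prime : p.Prime
  norm : Ideal.absNorm 𝔭 = p
  unramified : (p : 𝓞 K) ∉ 𝔭 ^ 2

end

/-- The bound for the field `K`, with the constant `C`, for the infinity types in the box `|ν_w| ≤ V` and
for `|t| ≤ T`. -/
def Bound (K : Type) [Field K] [NumberField K] (V T C : ℝ) : Prop :=
  ∀ (p : ℕ) (𝔭 : Ideal (𝓞 K)), DegreeOne p 𝔭 → 7 ≤ p →
    ∀ 𝔠 : Ideal (𝓞 K), 𝔠 ≠ ⊥ → IsCoprime 𝔠 𝔭 → ∀ k : ℕ, 1 ≤ k →
    ∀ ψ ∈ family K (𝔠 * 𝔭 ^ k) V, ∀ F : ℂ → ℂ, IsL ψ F → ∀ t : ℝ, |t| ≤ T →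
      ‖F (1 / 2 + t * I)‖ ≤
        C * (Ideal.absNorm 𝔠 : ℝ) ^ 2 * ((p : ℝ) * k) ^ 5 * ((p : ℝ) ^ k) ^ (19 / 116 : ℝ)

/-! ### Auxiliary facts -/

section

variable {K : Type} [Field K] [NumberField K]

lemma IsHecke.conv {𝔣 : Ideal (𝓞 K)} {ν : InfinitePlace K → ℝ} {ψ : Ideal (𝓞 K) →*₀ ℂ}
    (h : IsHecke K 𝔣 ν ψ) : Pool.Agent.Y767.IsHecke K 𝔣 ν ψ :=
  ⟨⟨h.ne_bot, h.supp, h.ray⟩, h.prim⟩

lemma family_eq (𝔮 : Ideal (𝓞 K)) (V : ℝ) : family K 𝔮 V = Pool.Agent.Y767.HFam K 𝔮 V := by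
  ext χ
  constructor
  · rintro ⟨ν, a1, a2, a3⟩
    exact ⟨ν, a1, a2, a3.conv⟩
  · rintro ⟨ν, a1, a2, a3⟩
    exact ⟨ν, a1, a2, a3.ne_bot, a3.supp, a3.ray, a3.prim⟩

end

theorem result :
    -- the L-functions
    (∀ (K : Type) [Field K] [NumberField K] [IsTotallyReal K] (𝔣 : Ideal (𝓞 K)) (V : ℝ), 𝔣 ≠ ⊤ →
      ∀ ψ ∈ family K 𝔣 V, ∃ F : ℂ → ℂ, IsL ψ F) ∧
    -- the bound
    (∀ (K : Type) [Field K] [NumberField K] [IsTotallyReal K] (V T : ℝ),
      ∃ C : ℝ, 0 < C ∧ Bound K V T C) ∧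
    -- the number of the characters
    (∀ (K : Type) [Field K] [NumberField K] [IsTotallyReal K],
      ∃ c V₀ : ℝ, 0 < c ∧ 1 ≤ V₀ ∧ ∀ (p : ℕ) (𝔭 : Ideal (𝓞 K)), DegreeOne p 𝔭 → 7 ≤ p →
        ∀ k : ℕ, 1 ≤ k → ∀ V : ℝ, V₀ ≤ V → (family K (𝔭 ^ k) V).Finite ∧
          c * (p : ℝ) ^ k * V ^ (Module.finrank ℚ K - 1) ≤ ((family K (𝔭 ^ k) V).ncard : ℝ)) := by
  refine ⟨?_, ?_, ?_⟩
  · rintro K _ _ _ 𝔣 V htop ψ ⟨ν, -, hs, h⟩
    have h3 := h.conv
    obtain ⟨e, F, hF, hFL⟩ := h3.fe hs htop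
    obtain ⟨e₀, he₀, hM⟩ := h3.toIsHM.isModK hs htop
    obtain ⟨A₀, hA₀, hD⟩ := Pool.Agent.Y772.DK.t_dirK K
    obtain ⟨d1, -⟩ := hD _ hM.norm_le_one
    refine ⟨F, hF.diff, fun s hs => ?_⟩
    rw [hFL s hs]
    exact (d1 s hs).of_norm.hasSum
  · intro K _ _ _ V T
    obtain ⟨C, hC, H⟩ := Pool.Agent.J4H31.central K V T
    refine ⟨C, hC, ?_⟩
    rintro p 𝔭 hd hp 𝔠 h𝔠 hcop k hk ψ ⟨ν, hν, hs, h⟩ F hF t ht
    exact H p 𝔭 ⟨hd.prime, hd.norm, hd.unramified⟩ hp 𝔠 h𝔠 hcop k hk ν ψ hν hs h.conv F hF.1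
      (fun s hs => (hF.2 s hs).tsum_eq.symm) t ht
  · intro K _ _ _
    obtain ⟨c, V₀, hc, hV₀, H⟩ := Pool.Agent.N786.D.fam_size K
    refine ⟨c, V₀, hc, hV₀, ?_⟩
    intro p 𝔭 hd hp k hk V hV
    have hd' : Pool.Agent.J4H31.Deg1 p 𝔭 := ⟨hd.prime, hd.norm, hd.unramified⟩
    have htop : (⊤ : Ideal (𝓞 K)) * 𝔭 ^ k ≠ ⊤ := by
      intro h0
      refine hd'.isPrime.ne_top (top_le_iff.1 ?_)
      rw [← h0]
      exact Ideal.mul_le_right.trans (Ideal.pow_le_self (by omega))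
    have hbot : (⊤ : Ideal (𝓞 K)) * 𝔭 ^ k ≠ ⊥ := by
      rw [Ideal.top_mul]
      exact pow_ne_zero k hd'.ne_bot
    have hcop : IsCoprime (⊤ : Ideal (𝓞 K)) (𝔭 ^ k) := by
      rw [← Ideal.one_eq_top]
      exact isCoprime_one_left
    have hsum : ∑ᶠ 𝔮 ∈ Pool.Agent.N786.PD (𝔭 ^ k), (1 / (Ideal.absNorm 𝔮 : ℝ)) ≤ 1 / 4 := by
      have h1 : Pool.Agent.N786.PD (𝔭 ^ k) = {𝔭} := by
        ext 𝔮
        simp only [Set.mem_singleton_iff]
        constructor
        · rintro ⟨h2, h3⟩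
          have h4 : 𝔭 ≤ 𝔮 := by
            have := Ideal.dvd_iff_le.1 h3
            exact h2.le_of_pow_le this
          exact ((hd'.isPrime.isMaximal hd'.ne_bot).eq_of_le h2.ne_top h4).symm
        · rintro rfl
          exact ⟨hd'.isPrime, dvd_pow_self _ (by omega)⟩
      rw [h1, finsum_mem_singleton, hd.norm]
      have h7 : (7 : ℝ) ≤ p := by exact_mod_cast hp
      rw [div_le_div_iff₀ (by linarith) (by norm_num)]
      linarith
    obtain ⟨h1, h2⟩ := H ⊤ (𝔭 ^ k) hcop htop hbot V hV hsum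
    rw [family_eq]
    refine ⟨h1, ?_⟩
    have hV0 : 0 < V := by linarith
    have hn : 0 < Module.finrank ℚ K := Module.finrank_pos
    have h3 : V ^ Module.finrank ℚ K = V ^ (Module.finrank ℚ K - 1) * V := by
      rw [← pow_succ]
      congr 1
      omega
    have h4 : (Ideal.absNorm (𝔭 ^ k) : ℝ) = (p : ℝ) ^ k := by
      rw [map_pow, hd.norm]
      push_cast
      rfl
    rw [h3, h4] at h2
    refine le_of_mul_le_mul_right ?_ hV0
    calc c * (p : ℝ) ^ k * V ^ (Module.finrank ℚ K - 1) * V =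
        c * ((p : ℝ) ^ k * (V ^ (Module.finrank ℚ K - 1) * V)) := by ring
      _ ≤ _ := h2

end Pool.Agent.J4H31.Old.SubWeylHeckeEveryDegree
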