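import Pool.Agent.J4H31.U.U17
import Pool.Agent.N786.D.Siz

/-!
# Beyond Weyl's exponent in the twist aspect, for the Hecke characters of all number fields

Let `K` be any number field, `n = [K : ℚ]`, and let `p ≥ 7` be a prime number which splits completely in
`K`.  Let `ψ` be a primitive, unitary, normalised Hecke character of `K` of conductor `𝔠 (p)^k`, with
`𝔠` prime to `p` and `k ≥ 1`, of any infinity type

  `ψ((x)) = ∏_w |x|_w^(i ν_w) (x_w / |x|_w)^(ℓ_w)`   (`x` totally positive, congruent to `1` modulo the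
  conductor),

where `w` runs through the infinite places, `x_w ∈ ℂ` is the image of `x` under the embedding of `w`,
`∑ ν_w = 0` and the `ℓ_w` are integers (the signs at the real places are arbitrary).  The conductor of
`L(s, ψ) = ∑ ψ(𝔞) N(𝔞)^(-s)` is `|D| N(𝔠) p^(nk)`, `D` the discriminant of `K`.  We prove, without any
hypothesis:

  `|L(1/2 + it, ψ)| ≤ C N(𝔠)^2 (p k)^(39 n) (p^(nk))^(19/116)`   for `|t| ≤ T`, `|ν_w|, |ℓ_w| ≤ V`,

where `C` depends only on `K`, `T` and `V`; it does not depend on `p`, `k`, `𝔠`, `ψ`.  The exponents of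
the convexity bound and of the Weyl bound are `1/4` and `1/6`; `19/116 < 1/6`.

In particular this applies to the twists: if `ψ` is a primitive Hecke character of conductor `𝔠` and
`χ` a primitive Dirichlet character mod `p^k`, then `ψ ⊗ χ : 𝔞 ↦ ψ(𝔞) χ(N(𝔞))` is a primitive Hecke
character of conductor `𝔠 (p)^k` with the infinity type of `ψ`.

Remarks (not part of the formal statement).
* `K` imaginary quadratic, `ℓ_w = m`: `L(s, ψ)` is the L-function of a holomorphic newform `f` of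
  weight `m + 1` with complex multiplication by `K` (Hecke), normalised to have its central line at
  `1/2`, and `L(s, ψ ⊗ χ) = L(s, f ⊗ χ)`.  For instance `L(s + 1/2, E ⊗ χ)` for the elliptic curves `E`
  over `ℚ` with complex multiplication.  So for these `f` one has, with `q = p^k`, `p` split in `K`,
  `L(1/2 + it, f ⊗ χ) ≪ (p k)^78 q^(19/58)`, beyond the Weyl exponent `q^(1/3)`.
* `K` a CM field: Hecke characters of type `A₀`, L-functions of abelian varieties with complex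
  multiplication and their twists.
* `K` real quadratic: Maass forms of dihedral type.
* `ψ` of finite order: the twists of all monomial Artin L-functions; `ψ = 1`: the twists
  `∑ χ(N(𝔞)) N(𝔞)^(-s)` of the Dedekind zeta function of `K`.
* If `K/ℚ` is cyclic of degree `n` (or solvable, in many cases) and the conjugates of `ψ` under the
  Galois group are all different, then `L(s, ψ)` is the L-function of a cuspidal automorphic
  representation `π` of `GL_n` over `ℚ` (Arthur and Clozel), and `L(s, ψ ⊗ χ)` is that of `π ⊗ χ`.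

Proof.  `L(s, ψ)` is a Mellin transform of theta functions with harmonic polynomials (products of
powers of the linear forms `x_w`), sums over a lattice of dimension `n` in a box of side `p^(k/2)`.  By
the Chinese remainder theorem and a basis of the lattice which is adapted to all the primes
`𝔭_1, …, 𝔭_n` above `p`, the character is, on the lattice, a product `∏ χ_i(x_i)` of `n` primitive
Dirichlet characters mod `p^k` of the coordinates.  The sum is estimated by differencing with shifts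
divisible by a power of `p` in every coordinate.  The shifts are classified by their `n` valuations
`m_i`; coordinates with `2 m_i ≥ k` become periodic with a small period and are split off; in the
others one applies Poisson summation and evaluates the Fourier coefficients, which are again `p`-adic
analytic phases, and then three more differencing steps with shifts divisible by powers of `p` that
depend on `∑ m_i` only.  The correlations are locally linear in each coordinate, and the number of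
classes in which the linear terms vanish is controlled coordinate by coordinate; the sums over the dual
lattices need only their covolume and the balance of the lattices (the product formula).  The weights
enter only through the sums of their autocorrelations over lattices, which are estimated for a general
product of orthogonal linear forms and a Gaussian.
-/

set_option autoImplicit false

open Complex NumberField

namespace Pool.Agent.J4H31.Old.SubWeylTwistsAllFields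

section

variable (K : Type) [Field K] [NumberField K]

/-- `x` is totally positive: positive at all real places of `K`. -/
def TotPos (x : 𝓞 K) : Prop := ∀ σ : K →+* ℝ, 0 < σ (x : K)

/-- `∏_w |x|_w^(i ν_w) (x_w / |x|_w)^(ℓ_w)`, the product being over the infinite places of `K`, where
`x_w` is the image of `x` under the embedding of `K` in `ℂ` chosen for `w` and `|x|_w` its absolute
value.  (At a real place and for totally positive `x` the second factor is `1`.) -/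
noncomputable def arch (ν : InfinitePlace K → ℝ) (l : InfinitePlace K → ℤ) (x : K) : ℂ :=
  Complex.exp (Complex.I * ((∑ w, ν w * Real.log (w x) : ℝ) : ℂ)) *
    ∏ w : InfinitePlace K, (w.embedding x / ((w x : ℝ) : ℂ)) ^ l w

/-- `ψ`, as a function on the ideals of `K` (zero on the ideals which are not prime to `𝔣`), is a
primitive unitary Hecke character of finite conductor `𝔣` and infinity type `(ν, ℓ)`, with arbitrary
signs at the real places. -/
structure IsHecke (𝔣 : Ideal (𝓞 K)) (ν : InfinitePlace K → ℝ) (l : InfinitePlace K → ℤ)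
    (ψ : Ideal (𝓞 K) →*₀ ℂ) : Prop where
  ne_bot : 𝔣 ≠ ⊥
  supp : ∀ 𝔞 : Ideal (𝓞 K), 𝔞 ≠ ⊥ → (ψ 𝔞 ≠ 0 ↔ IsCoprime 𝔞 𝔣)
  ray : ∀ x : 𝓞 K, x ≠ 0 → x - 1 ∈ 𝔣 → TotPos K x → ψ (Ideal.span {x}) = arch K ν l (x : K)
  prim : ∀ 𝔤 : Ideal (𝓞 K), 𝔤 ∣ 𝔣 → 𝔤 ≠ 𝔣 → ∃ x : 𝓞 K, x ≠ 0 ∧ x - 1 ∈ 𝔤 ∧ TotPos K x ∧
    IsCoprime (Ideal.span {x}) 𝔣 ∧ ψ (Ideal.span {x}) ≠ arch K ν l (x : K)

/-- All primitive Hecke characters of conductor `𝔣` whose infinity type `(ν, ℓ)` is normalised by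
`∑ ν_w = 0` and lies in the box `|ν_w| ≤ V`, `|ℓ_w| ≤ V`. -/
def family (𝔣 : Ideal (𝓞 K)) (V : ℝ) : Set (Ideal (𝓞 K) →*₀ ℂ) :=
  {ψ | ∃ (ν : InfinitePlace K → ℝ) (l : InfinitePlace K → ℤ), (∀ w, |ν w| ≤ V) ∧
    (∀ w, |(l w : ℝ)| ≤ V) ∧ ∑ w, ν w = 0 ∧ IsHecke K 𝔣 ν l ψ}

/-- The prime number `p` splits completely in `K`: there are `[K : ℚ]` ideals of norm `p`. -/
def SplitsCompletely (p : ℕ) : Prop :=
  p.Prime ∧ ∃ S : Finset (Ideal (𝓞 K)), S.card = Module.finrank ℚ K ∧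
    ∀ 𝔭 ∈ S, Ideal.absNorm 𝔭 = p

variable {K}

/-- `F` is the (entire) L-function of `ψ`. -/
def IsL (ψ : Ideal (𝓞 K) →*₀ ℂ) (F : ℂ → ℂ) : Prop :=
  Differentiable ℂ F ∧ ∀ s : ℂ, 1 < s.re →
    HasSum (fun 𝔞 : Ideal (𝓞 K) => ψ 𝔞 * ((Ideal.absNorm 𝔞 : ℕ) : ℂ) ^ (-s)) (F s)

/-- The twist of `ψ` by the Dirichlet character `χ`: the product of `ψ` and `χ ∘ N`. -/
noncomputable def twist (ψ : Ideal (𝓞 K) →*₀ ℂ) {q : ℕ} (χ : DirichletCharacter ℂ q) :
    Ideal (𝓞 K) →*₀ ℂ where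
  toFun 𝔞 := ψ 𝔞 * χ ((Ideal.absNorm 𝔞 : ℕ) : ZMod q)
  map_zero' := by rw [map_zero, zero_mul]
  map_one' := by
    rw [map_one, one_mul]
    simp
  map_mul' 𝔞 𝔟 := by
    rw [map_mul, map_mul, Nat.cast_mul, map_mul]
    ring

end

/-- The bound for the field `K`, with the constant `C`, for the infinity types in the box
`|ν_w|, |ℓ_w| ≤ V` and for `|t| ≤ T`. -/
def Bound (K : Type) [Field K] [NumberField K] (V T C : ℝ) : Prop :=
  ∀ p : ℕ, SplitsCompletely K p → 7 ≤ p →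
    ∀ 𝔠 : Ideal (𝓞 K), 𝔠 ≠ ⊥ → IsCoprime 𝔠 (Ideal.span {(p : 𝓞 K)}) → ∀ k : ℕ, 1 ≤ k →
    ∀ ψ ∈ family K (𝔠 * Ideal.span {(p : 𝓞 K)} ^ k) V, (∃ F : ℂ → ℂ, IsL ψ F) ∧
      ∀ F : ℂ → ℂ, IsL ψ F → ∀ t : ℝ, |t| ≤ T → ‖F (1 / 2 + t * I)‖ ≤
        C * (Ideal.absNorm 𝔠 : ℝ) ^ 2 * ((p : ℝ) * k) ^ (39 * Module.finrank ℚ K) *
          ((p : ℝ) ^ (Module.finrank ℚ K * k)) ^ (19 / 116 : ℝ)

/-! ### Auxiliary facts -/

section

variable {K : Type} [Field K] [NumberField K]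

lemma arch_eq (ν : InfinitePlace K → ℝ) (l : InfinitePlace K → ℤ) (x : K) :
    arch K ν l x = Pool.Agent.Y767.ax ν x * Pool.Agent.J4H31.U.ang l x := rfl

lemma IsHecke.conv {𝔣 : Ideal (𝓞 K)} {ν : InfinitePlace K → ℝ} {l : InfinitePlace K → ℤ}
    {ψ : Ideal (𝓞 K) →*₀ ℂ} (h : IsHecke K 𝔣 ν l ψ) :
    Pool.Agent.J4H31.U.IsHA 𝔣
      (fun x : K => Pool.Agent.Y767.ax ν x * Pool.Agent.J4H31.U.ang l x) ψ :=
  ⟨h.ne_bot, h.supp, h.ray, h.prim⟩

lemma IsHecke.of {𝔣 : Ideal (𝓞 K)} {ν : InfinitePlace K → ℝ} {l : InfinitePlace K → ℤ}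
    {ψ : Ideal (𝓞 K) →*₀ ℂ} (h : Pool.Agent.J4H31.U.IsHA 𝔣
      (fun x : K => Pool.Agent.Y767.ax ν x * Pool.Agent.J4H31.U.ang l x) ψ) :
    IsHecke K 𝔣 ν l ψ :=
  ⟨h.ne_bot, h.supp, h.ray, h.prim⟩

lemma arch_real [IsTotallyReal K] (ν : InfinitePlace K → ℝ) (l : InfinitePlace K → ℤ) {x : 𝓞 K}
    (hx : x ≠ 0) (hp : TotPos K x) : arch K ν l (x : K) = Pool.Agent.Y767.ax ν (x : K) := by
  rw [arch_eq]
  have : Pool.Agent.J4H31.U.ang l (x : K) = 1 := by
    unfold Pool.Agent.J4H31.U.ang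
    refine Finset.prod_eq_one fun w _ => ?_
    rw [Pool.Agent.J4H31.U.uni_tpos (IsTotallyReal.isReal w) hx hp, one_zpow]
  rw [this, mul_one]

lemma tpos_ne [IsTotallyReal K] {x : 𝓞 K} (hp : TotPos K x) : x ≠ 0 := by
  rintro rfl
  obtain ⟨w⟩ : Nonempty (InfinitePlace K) := inferInstance
  have h1 := hp (InfinitePlace.embedding_of_isReal (IsTotallyReal.isReal w))
  simp at h1

lemma family_eq [IsTotallyReal K] (𝔮 : Ideal (𝓞 K)) {V : ℝ} (hV : 0 ≤ V) :
    family K 𝔮 V = Pool.Agent.Y767.HFam K 𝔮 V := by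
  ext χ
  constructor
  · rintro ⟨ν, l, a1, -, a2, a3⟩
    refine ⟨ν, a1, a2, ⟨a3.ne_bot, a3.supp, fun x hx hx1 => ?_⟩, fun 𝔤 hg hne => ?_⟩
    · have hx0 : x ≠ 0 := tpos_ne hx1
      rw [a3.ray x hx0 hx hx1, arch_real ν l hx0 hx1]
    · obtain ⟨x, b0, b1, b2, b3, b4⟩ := a3.prim 𝔤 hg hne
      exact ⟨x, b1, b2, b3, by rwa [← arch_real ν l b0 b2]⟩
  · rintro ⟨ν, a1, a2, a3⟩
    refine ⟨ν, fun _ => 0, a1, fun w => by simpa using hV, a2, a3.ne_bot, a3.supp,
      fun x hx0 hx hx1 => ?_, fun 𝔤 hg hne => ?_⟩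
    · rw [a3.ray x hx hx1, arch_real ν _ hx0 hx1]
    · obtain ⟨x, b1, b2, b3, b4⟩ := a3.prim 𝔤 hg hne
      have hx0 : x ≠ 0 := tpos_ne b2
      exact ⟨x, hx0, b1, b2, b3, by rwa [arch_real ν _ hx0 b2]⟩

open Classical in
lemma exists_split {p : ℕ} (h : SplitsCompletely K p) :
    ∃ 𝔭 : (K →+* ℂ) → Ideal (𝓞 K), Pool.Agent.J4H31.V.Split p 𝔭 := by
  obtain ⟨hp, S, hS, hN⟩ := h
  have hcard : Fintype.card (K →+* ℂ) = Module.finrank ℚ K := Pool.Agent.Y773.G.card_emb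
  have hc : Fintype.card (K →+* ℂ) = Fintype.card S := by
    rw [hcard, ← hS, Fintype.card_coe]
  set e := Fintype.equivOfCardEq hc
  exact ⟨fun w => (e w : Ideal (𝓞 K)), hp, fun w => hN _ (e w).2,
    fun w w' h => e.injective (Subtype.ext h), hcard⟩

lemma natAbs_le {V : ℝ} {l : ℤ} (h : |(l : ℝ)| ≤ V) : l.natAbs ≤ max 1 ⌊V⌋₊ := by
  refine le_max_of_le_right (Nat.le_floor ?_)
  rw [Nat.cast_natAbs, Int.cast_abs]
  exact h

end

theorem result :
    -- the bound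
    (∀ (K : Type) [Field K] [NumberField K] (V T : ℝ), ∃ C : ℝ, 0 < C ∧ Bound K V T C) ∧
    -- the twists are among these characters
    (∀ (K : Type) [Field K] [NumberField K] (p : ℕ), SplitsCompletely K p →
      ∀ 𝔠 : Ideal (𝓞 K), IsCoprime 𝔠 (Ideal.span {(p : 𝓞 K)}) → ∀ k : ℕ, 1 ≤ k →
      ∀ V : ℝ, ∀ ψ ∈ family K 𝔠 V, ∀ χ : DirichletCharacter ℂ (p ^ k), χ.IsPrimitive →
        twist ψ χ ∈ family K (𝔠 * Ideal.span {(p : 𝓞 K)} ^ k) V) ∧
    -- the number of the characters (for totally real fields)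
    (∀ (K : Type) [Field K] [NumberField K] [IsTotallyReal K],
      ∃ c V₀ : ℝ, 0 < c ∧ 1 ≤ V₀ ∧ ∀ p : ℕ, SplitsCompletely K p → 4 * Module.finrank ℚ K ≤ p →
        ∀ k : ℕ, 1 ≤ k → ∀ V : ℝ, V₀ ≤ V →
          (family K (Ideal.span {(p : 𝓞 K)} ^ k) V).Finite ∧
          c * (p : ℝ) ^ (Module.finrank ℚ K * k) * V ^ (Module.finrank ℚ K - 1) ≤
            ((family K (Ideal.span {(p : 𝓞 K)} ^ k) V).ncard : ℝ)) := by
  classical
  refine ⟨?_, ?_, ?_⟩
  · intro K _ _ V T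
    obtain ⟨C, hC, H⟩ := Pool.Agent.J4H31.U.centralX K (max 1 ⌊V⌋₊) V T
    refine ⟨C, hC, ?_⟩
    rintro p hsp hp 𝔠 h𝔠 hcop k hk ψ ⟨ν, l, hν, hl, hs, h⟩
    obtain ⟨𝔭, hd⟩ := exists_split hsp
    have hpk : ∏ j, 𝔭 j ^ k = Ideal.span {(p : 𝓞 K)} ^ k := by
      rw [Finset.prod_pow, hd.prod_eq]
    have hcop' : ∀ i, IsCoprime 𝔠 (𝔭 i) := fun i => by
      rw [← hd.prod_eq] at hcop
      exact (IsCoprime.prod_right_iff.1 hcop) i (Finset.mem_univ i)
    have htop : 𝔠 * Ideal.span {(p : 𝓞 K)} ^ k ≠ ⊤ := by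
      intro h0
      obtain ⟨i⟩ : Nonempty (K →+* ℂ) := inferInstance
      refine (hd.isPrime i).ne_top (top_le_iff.1 ?_)
      rw [← h0, ← hd.prod_eq]
      refine Ideal.mul_le_right.trans ((Ideal.pow_le_self (by omega)).trans ?_)
      exact Ideal.dvd_iff_le.1 (Finset.dvd_prod_of_mem 𝔭 (Finset.mem_univ i))
    obtain ⟨σ, e, hσ, he, heM, hM, hP⟩ :=
      h.conv.toK hs htop (le_max_left 1 ⌊V⌋₊) (fun w => natAbs_le (hl w))
    refine ⟨?_, ?_⟩
    · obtain ⟨C₁, -, hfe⟩ := Pool.Agent.J4H31.U.fe_boundX K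
      obtain ⟨F, -, -, -, -, hF, hFL, -⟩ := hfe hσ he hs hP hM
      obtain ⟨A₀, hA₀, hD⟩ := Pool.Agent.Y772.DK.t_dirK K
      obtain ⟨d1, -⟩ := hD _ hM.norm_le_one
      refine ⟨F, hF, fun s hs => ?_⟩
      rw [hFL s hs]
      exact (d1 s hs).of_norm.hasSum
    · intro F hF t ht
      rw [← hpk] at hM hP
      exact H p 𝔭 hd hp 𝔠 h𝔠 hcop' k hk σ hσ e he heM ν hν hs ψ hM hP F hF.1
        (fun s hs => (hF.2 s hs).tsum_eq.symm) t ht
  · rintro K _ _ p hsp 𝔠 hcop k hk V ψ ⟨ν, l, hν, hl, hs, h⟩ χ hχ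
    obtain ⟨𝔭, hd⟩ := exists_split hsp
    have hpk : ∏ j, 𝔭 j ^ k = Ideal.span {(p : 𝓞 K)} ^ k := by
      rw [Finset.prod_pow, hd.prod_eq]
    have hcop' : IsCoprime 𝔠 (∏ j, 𝔭 j ^ k) := by
      rw [hpk]
      exact hcop.pow_right
    have h1 := Pool.Agent.J4H31.U.pr_isHA hcop' (Pool.Agent.J4H31.U.mul0_type ν l)
      Pool.Agent.J4H31.U.mul0_one h.conv (Pool.Agent.J4H31.U.nch_isHA hd hk hχ) (χ := twist ψ χ)
      (fun 𝔞 h𝔞 => by
        rw [Pool.Agent.J4H31.V.nch_apply χ h𝔞]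
        rfl)
    rw [hpk] at h1
    exact ⟨ν, l, hν, hl, hs, IsHecke.of (h1.congr fun x _ _ => mul_one _)⟩
  · intro K _ _ _
    obtain ⟨c, V₀, hc, hV₀, H⟩ := Pool.Agent.N786.D.fam_size K
    refine ⟨c, V₀, hc, hV₀, ?_⟩
    intro p hsp hp k hk V hV
    obtain ⟨𝔭, hd⟩ := exists_split hsp
    set 𝔮 : Ideal (𝓞 K) := Ideal.span {(p : 𝓞 K)} ^ k with h𝔮
    have hpk : ∏ j, 𝔭 j ^ k = 𝔮 := by
      rw [Finset.prod_pow, hd.prod_eq]
    have hbot : (⊤ : Ideal (𝓞 K)) * 𝔮 ≠ ⊥ := by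
      rw [Ideal.top_mul, ← hpk]
      have h1 : ∏ i, 𝔭 i ^ k ≠ 0 :=
        Finset.prod_ne_zero_iff.2 fun i _ => pow_ne_zero _ (hd.ne_bot i)
      exact h1
    have hpr : ∀ 𝔯 : Ideal (𝓞 K), 𝔯.IsPrime → 𝔯 ∣ 𝔮 → ∃ i, 𝔯 = 𝔭 i := by
      intro 𝔯 h2 h3
      have h0 : 𝔯 ≠ ⊥ := by
        rintro rfl
        rw [Ideal.top_mul] at hbot
        obtain ⟨w, hw⟩ := h3
        exact hbot (by rw [hw]; exact Ideal.bot_mul w)
      have hprime : Prime 𝔯 := Ideal.prime_of_isPrime h0 h2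
      rw [← hpk] at h3
      obtain ⟨i, -, hi⟩ := (Prime.dvd_finsetProd_iff hprime _).1 h3
      have hi' : 𝔯 ∣ 𝔭 i := hprime.dvd_of_dvd_pow hi
      exact ⟨i, ((hd.isMaximal i).eq_of_le h2.ne_top (Ideal.dvd_iff_le.1 hi')).symm⟩
    have htop : (⊤ : Ideal (𝓞 K)) * 𝔮 ≠ ⊤ := by
      intro h0
      obtain ⟨i⟩ : Nonempty (K →+* ℂ) := inferInstance
      refine (hd.isPrime i).ne_top (top_le_iff.1 ?_)
      rw [← h0, h𝔮, ← hd.prod_eq]
      refine Ideal.mul_le_right.trans ((Ideal.pow_le_self (by omega)).trans ?_)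
      exact Ideal.dvd_iff_le.1 (Finset.dvd_prod_of_mem 𝔭 (Finset.mem_univ i))
    have hcop : IsCoprime (⊤ : Ideal (𝓞 K)) 𝔮 := by
      rw [← Ideal.one_eq_top]
      exact isCoprime_one_left
    have hp0 : (0 : ℝ) < p := by exact_mod_cast hd.hp.pos
    have hsum : ∑ᶠ 𝔯 ∈ Pool.Agent.N786.PD 𝔮, (1 / (Ideal.absNorm 𝔯 : ℝ)) ≤ 1 / 4 := by
      have h1 : Pool.Agent.N786.PD 𝔮 = ((Finset.univ.image 𝔭 : Finset (Ideal (𝓞 K))) :
          Set (Ideal (𝓞 K))) := by
        ext 𝔯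
        simp only [Finset.coe_image, Finset.coe_univ, Set.image_univ, Set.mem_range]
        constructor
        · rintro ⟨h2, h3⟩
          obtain ⟨i, hi⟩ := hpr 𝔯 h2 h3
          exact ⟨i, hi.symm⟩
        · rintro ⟨i, rfl⟩
          refine ⟨hd.isPrime i, ?_⟩
          rw [← hpk]
          exact (dvd_pow_self (𝔭 i) (by omega : k ≠ 0)).trans
            (Finset.dvd_prod_of_mem (fun j => 𝔭 j ^ k) (Finset.mem_univ i))
      rw [h1, finsum_mem_coe_finset, Finset.sum_image (fun i _ j _ hij => hd.inj hij)]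
      have h2 : ∑ i, (1 / (Ideal.absNorm (𝔭 i) : ℝ)) = Module.finrank ℚ K * (1 / p) := by
        rw [Finset.sum_congr rfl fun i _ => by rw [hd.norm i], Finset.sum_const, Finset.card_univ,
          hd.card, nsmul_eq_mul]
      rw [h2]
      have h3 : (4 : ℝ) * Module.finrank ℚ K ≤ p := by exact_mod_cast hp
      rw [mul_one_div, div_le_div_iff₀ hp0 (by norm_num)]
      linarith
    have hV0 : 0 < V := by linarith
    obtain ⟨h1, h2⟩ := H ⊤ 𝔮 hcop htop hbot V hV hsum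
    rw [family_eq _ hV0.le]
    refine ⟨h1, ?_⟩
    have hn : 0 < Module.finrank ℚ K := Module.finrank_pos
    have h3 : V ^ Module.finrank ℚ K = V ^ (Module.finrank ℚ K - 1) * V := by
      rw [← pow_succ]
      congr 1
      omega
    have h4 : (Ideal.absNorm 𝔮 : ℝ) = (p : ℝ) ^ (Module.finrank ℚ K * k) := by
      rw [← hpk, map_prod, Finset.prod_congr rfl fun i _ => (hd.deg1 i).norm_pow k,
        Finset.prod_const, Finset.card_univ, hd.card, ← pow_mul, mul_comm]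
      push_cast
      rfl
    rw [h3, h4] at h2
    refine le_of_mul_le_mul_right ?_ hV0
    calc c * (p : ℝ) ^ (Module.finrank ℚ K * k) * V ^ (Module.finrank ℚ K - 1) * V =
        c * ((p : ℝ) ^ (Module.finrank ℚ K * k) * (V ^ (Module.finrank ℚ K - 1) * V)) := by ring
      _ ≤ _ := h2

end Pool.Agent.J4H31.Old.SubWeylTwistsAllFields
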