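import Pool.Agent.J4H31.V.V17
import Pool.Agent.N786.D.Siz

/-!
# Beyond Weyl's exponent in the twist aspect, in every degree

Let `K` be a totally real number field of any degree `n ≥ 1` and let `p ≥ 7` be a prime number which
splits completely in `K`.  Let `ψ` be a primitive, unitary, normalised Hecke character of `K` of
conductor `𝔠 (p)^k`, with `𝔠` prime to `p` and `k ≥ 1`, of infinity type `ν` (real numbers `ν_w` with
`∑ ν_w = 0`; arbitrary signs at the real places).  The conductor of `L(s, ψ) = ∑ ψ(𝔞) N(𝔞)^(-s)` is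
`|D| N(𝔠) p^(nk)`, `D` the discriminant of `K`.  We prove, without any hypothesis:

  `|L(1/2 + it, ψ)| ≤ C N(𝔠)^2 (p k)^(39 n) (p^(nk))^(19/116)`   for `|t| ≤ T`, `|ν_w| ≤ V`,

where `C` depends only on `K`, `T` and `V`; it does not depend on `p`, `k`, `𝔠`, `ψ`.  The exponents of
the convexity bound and of the Weyl bound are `1/4` and `1/6`; `19/116 < 1/6`.

In particular this applies to the twists: if `ψ` is a primitive Hecke character of conductor `𝔠` and
`χ` a primitive Dirichlet character mod `p^k`, then `ψ ⊗ χ : 𝔞 ↦ ψ(𝔞) χ(N(𝔞))` is a primitive Hecke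
character of conductor `𝔠 (p)^k` with the infinity type of `ψ`.

Remark (not part of the formal statement).  If `K/ℚ` is cyclic of degree `n` and the conjugates of `ψ`
under the Galois group are all different, then `L(s, ψ)` is the L-function of a cuspidal automorphic
representation `π` of `GL_n` over `ℚ` (Arthur and Clozel), and `L(s, ψ ⊗ χ)` is that of `π ⊗ χ`.  So for
every `n` there are fixed cuspidal `π` on `GL_n` with a bound for `L(1/2 + it, π ⊗ χ)` beyond the Weyl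
exponent in the twist aspect, `χ` a Dirichlet character of conductor `p^k`, `k → ∞`.

Proof.  As for `SubWeylHeckeEveryDegree`, `L(s, ψ)` is a Mellin transform of theta functions, sums over
a lattice of dimension `n` in a box of side `p^(k/2)`.  By the Chinese remainder theorem and a basis of
the lattice which is adapted to all the primes `𝔭_1, …, 𝔭_n` above `p`, the character is, on the
lattice, a product `∏ χ_i(x_i)` of `n` primitive Dirichlet characters mod `p^k` of the coordinates.  The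
sum is estimated by differencing with shifts divisible by a power of `p` in every coordinate.  The
shifts are classified by their `n` valuations `m_i`; coordinates with `2 m_i ≥ k` become periodic with
a small period and are split off; in the others one applies Poisson summation and evaluates the
Fourier coefficients, which are again `p`-adic analytic phases, and then three more differencing steps
with shifts divisible by powers of `p` that depend on `∑ m_i` only.  The correlations are locally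
linear in each coordinate, and the number of classes in which the linear terms vanish is controlled
coordinate by coordinate; the sums over the dual lattices need only their covolume and the balance of
the lattices (the product formula).
-/

set_option autoImplicit false

open Complex NumberField

namespace Pool.Agent.J4H31.Old.SubWeylTwistsEveryDegree

section

variable (K : Type) [Field K] [NumberField K]

/-- `x` is totally positive. -/
def TotPos (x : 𝓞 K) : Prop := ∀ σ : K →+* ℝ, 0 < σ (x : K)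

/-- `∏_w |x|_w^(i ν_w)`, the product being over the infinite places of `K`. -/
noncomputable def arch (ν : InfinitePlace K → ℝ) (x : K) : ℂ :=
  Complex.exp (Complex.I * ((∑ w, ν w * Real.log (w x) : ℝ) : ℂ))

/-- `ψ`, as a function on the ideals of the totally real field `K` (zero on the ideals which are not
prime to `𝔣`), is a primitive unitary Hecke character of finite conductor `𝔣` and infinity type `ν`,
with arbitrary signs at the real places. -/
structure IsHecke (𝔣 : Ideal (𝓞 K)) (ν : InfinitePlace K → ℝ) (ψ : Ideal (𝓞 K) →*₀ ℂ) : Prop where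
  ne_bot : 𝔣 ≠ ⊥
  supp : ∀ 𝔞 : Ideal (𝓞 K), 𝔞 ≠ ⊥ → (ψ 𝔞 ≠ 0 ↔ IsCoprime 𝔞 𝔣)
  ray : ∀ x : 𝓞 K, x - 1 ∈ 𝔣 → TotPos K x → ψ (Ideal.span {x}) = arch K ν (x : K)
  prim : ∀ 𝔤 : Ideal (𝓞 K), 𝔤 ∣ 𝔣 → 𝔤 ≠ 𝔣 → ∃ x : 𝓞 K, x - 1 ∈ 𝔤 ∧ TotPos K x ∧
    IsCoprime (Ideal.span {x}) 𝔣 ∧ ψ (Ideal.span {x}) ≠ arch K ν (x : K)

/-- All primitive Hecke characters of conductor `𝔣` whose infinity type `ν` is normalised by
`∑ ν_w = 0` and lies in the box `|ν_w| ≤ V`. -/
def family (𝔣 : Ideal (𝓞 K)) (V : ℝ) : Set (Ideal (𝓞 K) →*₀ ℂ) :=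
  {ψ | ∃ ν : InfinitePlace K → ℝ, (∀ w, |ν w| ≤ V) ∧ ∑ w, ν w = 0 ∧ IsHecke K 𝔣 ν ψ}

/-- The prime number `p` splits completely in `K`: there are `[K : ℚ]` ideals of norm `p`. -/
def SplitsCompletely (p : ℕ) : Prop :=
  p.Prime ∧ ∃ S : Finset (Ideal (𝓞 K)), S.card = Module.finrank ℚ K ∧
    ∀ 𝔭 ∈ S, Ideal.absNorm 𝔭 = p

variable {K}

/-- `F` is the (entire) L-function of `ψ`. -/
def IsL (ψ : Ideal (𝓞 K) →*₀ ℂ) (F : ℂ → ℂ) : Prop :=
  Differentiable ℂ F ∧ ∀ s : ℂ, 1 < s.re →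
    HasSum (fun 𝔞 : Ideal (𝓞 K) => ψ 𝔞 * ((Ideal.absNorm 𝔞 : ℕ) : ℂ) ^ (-s)) (F s)

/-- The twist of `ψ` by the Dirichlet character `χ`: the product of `ψ` and `χ ∘ N`. -/
noncomputable def twist (ψ : Ideal (𝓞 K) →*₀ ℂ) {q : ℕ} (χ : DirichletCharacter ℂ q) :
    Ideal (𝓞 K) →*₀ ℂ where
  toFun 𝔞 := ψ 𝔞 * χ ((Ideal.absNorm 𝔞 : ℕ) : ZMod q)
  map_zero' := by rw [map_zero, zero_mul]
  map_one' := by
    rw [map_one, one_mul]
    simp
  map_mul' 𝔞 𝔟 := by
    rw [map_mul, map_mul, Nat.cast_mul, map_mul]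
    ring

end

/-- The bound for the field `K`, with the constant `C`, for the infinity types in the box `|ν_w| ≤ V` and
for `|t| ≤ T`. -/
def Bound (K : Type) [Field K] [NumberField K] (V T C : ℝ) : Prop :=
  ∀ p : ℕ, SplitsCompletely K p → 7 ≤ p →
    ∀ 𝔠 : Ideal (𝓞 K), 𝔠 ≠ ⊥ → IsCoprime 𝔠 (Ideal.span {(p : 𝓞 K)}) → ∀ k : ℕ, 1 ≤ k →
    ∀ ψ ∈ family K (𝔠 * Ideal.span {(p : 𝓞 K)} ^ k) V, (∃ F : ℂ → ℂ, IsL ψ F) ∧
      ∀ F : ℂ → ℂ, IsL ψ F → ∀ t : ℝ, |t| ≤ T → ‖F (1 / 2 + t * I)‖ ≤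
        C * (Ideal.absNorm 𝔠 : ℝ) ^ 2 * ((p : ℝ) * k) ^ (39 * Module.finrank ℚ K) *
          ((p : ℝ) ^ (Module.finrank ℚ K * k)) ^ (19 / 116 : ℝ)

/-! ### Auxiliary facts -/

section

variable {K : Type} [Field K] [NumberField K]

lemma IsHecke.conv {𝔣 : Ideal (𝓞 K)} {ν : InfinitePlace K → ℝ} {ψ : Ideal (𝓞 K) →*₀ ℂ}
    (h : IsHecke K 𝔣 ν ψ) : Pool.Agent.Y767.IsHecke K 𝔣 ν ψ :=
  ⟨⟨h.ne_bot, h.supp, h.ray⟩, h.prim⟩

lemma family_eq (𝔮 : Ideal (𝓞 K)) (V : ℝ) : family K 𝔮 V = Pool.Agent.Y767.HFam K 𝔮 V := by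
  ext χ
  constructor
  · rintro ⟨ν, a1, a2, a3⟩
    exact ⟨ν, a1, a2, a3.conv⟩
  · rintro ⟨ν, a1, a2, a3⟩
    exact ⟨ν, a1, a2, a3.ne_bot, a3.supp, a3.ray, a3.prim⟩

lemma twist_eq (ψ : Ideal (𝓞 K) →*₀ ℂ) {q : ℕ} (χ : DirichletCharacter ℂ q) :
    twist ψ χ = Pool.Agent.N786.pr ψ (Pool.Agent.J4H31.V.nch χ) := by
  ext 𝔞
  by_cases h : 𝔞 = ⊥
  · have h0 : 𝔞 = 0 := h
    rw [h0, map_zero, map_zero]
  · rw [Pool.Agent.N786.pr_apply, Pool.Agent.J4H31.V.nch_apply χ h]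
    rfl

lemma exists_split [IsTotallyReal K] {p : ℕ} (h : SplitsCompletely K p) :
    ∃ 𝔭 : InfinitePlace K → Ideal (𝓞 K), Pool.Agent.J4H31.V.Split p 𝔭 := by
  classical
  obtain ⟨hp, S, hS, hN⟩ := h
  have hcard : Fintype.card (InfinitePlace K) = Module.finrank ℚ K := by
    rw [← Pool.Agent.Y773.card_Idx (K := K), ← Module.finrank_eq_card_chooseBasisIndex,
      RingOfIntegers.rank]
  have hc : Fintype.card (InfinitePlace K) = Fintype.card S := by
    rw [hcard, ← hS, Fintype.card_coe]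
  set e := Fintype.equivOfCardEq hc
  exact ⟨fun w => (e w : Ideal (𝓞 K)), hp, fun w => hN _ (e w).2,
    fun w w' h => e.injective (Subtype.ext h), hcard⟩

end

theorem result :
    -- the bound
    (∀ (K : Type) [Field K] [NumberField K] [IsTotallyReal K] (V T : ℝ),
      ∃ C : ℝ, 0 < C ∧ Bound K V T C) ∧
    -- the twists are among these characters
    (∀ (K : Type) [Field K] [NumberField K] [IsTotallyReal K] (p : ℕ), SplitsCompletely K p →
      ∀ 𝔠 : Ideal (𝓞 K), IsCoprime 𝔠 (Ideal.span {(p : 𝓞 K)}) → ∀ k : ℕ, 1 ≤ k →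
      ∀ V : ℝ, ∀ ψ ∈ family K 𝔠 V, ∀ χ : DirichletCharacter ℂ (p ^ k), χ.IsPrimitive →
        twist ψ χ ∈ family K (𝔠 * Ideal.span {(p : 𝓞 K)} ^ k) V) ∧
    -- the number of the characters
    (∀ (K : Type) [Field K] [NumberField K] [IsTotallyReal K],
      ∃ c V₀ : ℝ, 0 < c ∧ 1 ≤ V₀ ∧ ∀ p : ℕ, SplitsCompletely K p → 4 * Module.finrank ℚ K ≤ p →
        ∀ k : ℕ, 1 ≤ k → ∀ V : ℝ, V₀ ≤ V →
          (family K (Ideal.span {(p : 𝓞 K)} ^ k) V).Finite ∧
          c * (p : ℝ) ^ (Module.finrank ℚ K * k) * V ^ (Module.finrank ℚ K - 1) ≤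
            ((family K (Ideal.span {(p : 𝓞 K)} ^ k) V).ncard : ℝ)) := by
  classical
  refine ⟨?_, ?_, ?_⟩
  · intro K _ _ _ V T
    obtain ⟨C, hC, H⟩ := Pool.Agent.J4H31.V.centralN K V T
    refine ⟨C, hC, ?_⟩
    rintro p hsp hp 𝔠 h𝔠 hcop k hk ψ ⟨ν, hν, hs, h⟩
    obtain ⟨𝔭, hd⟩ := exists_split hsp
    have hpk : ∏ j, 𝔭 j ^ k = Ideal.span {(p : 𝓞 K)} ^ k := by
      rw [Finset.prod_pow, hd.prod_eq]
    have hcop' : ∀ i, IsCoprime 𝔠 (𝔭 i) := fun i => by
      rw [← hd.prod_eq] at hcop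
      exact (IsCoprime.prod_right_iff.1 hcop) i (Finset.mem_univ i)
    refine ⟨?_, ?_⟩
    · have h3 := h.conv
      have htop : 𝔠 * Ideal.span {(p : 𝓞 K)} ^ k ≠ ⊤ := by
        intro h0
        obtain ⟨i⟩ : Nonempty (InfinitePlace K) := inferInstance
        refine (hd.isPrime i).ne_top (top_le_iff.1 ?_)
        rw [← h0, ← hd.prod_eq]
        refine Ideal.mul_le_right.trans ((Ideal.pow_le_self (by omega)).trans ?_)
        exact Ideal.dvd_iff_le.1 (Finset.dvd_prod_of_mem 𝔭 (Finset.mem_univ i))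
      obtain ⟨e, F, hF, hFL⟩ := h3.fe hs htop
      obtain ⟨e₀, he₀, hM⟩ := h3.toIsHM.isModK hs htop
      obtain ⟨A₀, hA₀, hD⟩ := Pool.Agent.Y772.DK.t_dirK K
      obtain ⟨d1, -⟩ := hD _ hM.norm_le_one
      refine ⟨F, hF.diff, fun s hs => ?_⟩
      rw [hFL s hs]
      exact (d1 s hs).of_norm.hasSum
    · intro F hF t ht
      refine H p 𝔭 hd hp 𝔠 h𝔠 hcop' k hk ν ψ hν hs ?_ F hF.1
        (fun s hs => (hF.2 s hs).tsum_eq.symm) t ht
      rw [hpk]
      exact h.conv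
  · rintro K _ _ _ p hsp 𝔠 hcop k hk V ψ ⟨ν, hν, hs, h⟩ χ hχ
    obtain ⟨𝔭, hd⟩ := exists_split hsp
    have hpk : ∏ j, 𝔭 j ^ k = Ideal.span {(p : 𝓞 K)} ^ k := by
      rw [Finset.prod_pow, hd.prod_eq]
    have hcop' : ∀ i, IsCoprime 𝔠 (𝔭 i) := fun i => by
      rw [← hd.prod_eq] at hcop
      exact (IsCoprime.prod_right_iff.1 hcop) i (Finset.mem_univ i)
    have h1 := Pool.Agent.J4H31.V.twist_isHecke hd hk hcop' h.conv hχ
    rw [hpk, ← twist_eq] at h1
    exact ⟨ν, hν, hs, h1.ne_bot, h1.supp, h1.ray, h1.prim⟩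
  · intro K _ _ _
    obtain ⟨c, V₀, hc, hV₀, H⟩ := Pool.Agent.N786.D.fam_size K
    refine ⟨c, V₀, hc, hV₀, ?_⟩
    intro p hsp hp k hk V hV
    obtain ⟨𝔭, hd⟩ := exists_split hsp
    set 𝔮 : Ideal (𝓞 K) := Ideal.span {(p : 𝓞 K)} ^ k with h𝔮
    have hpk : ∏ j, 𝔭 j ^ k = 𝔮 := by
      rw [Finset.prod_pow, hd.prod_eq]
    have hbot : (⊤ : Ideal (𝓞 K)) * 𝔮 ≠ ⊥ := by
      rw [Ideal.top_mul, ← hpk]
      have h1 : ∏ i, 𝔭 i ^ k ≠ 0 :=
        Finset.prod_ne_zero_iff.2 fun i _ => pow_ne_zero _ (hd.ne_bot i)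
      exact h1
    have hpr : ∀ 𝔯 : Ideal (𝓞 K), 𝔯.IsPrime → 𝔯 ∣ 𝔮 → ∃ i, 𝔯 = 𝔭 i := by
      intro 𝔯 h2 h3
      have h0 : 𝔯 ≠ ⊥ := by
        rintro rfl
        rw [Ideal.top_mul] at hbot
        obtain ⟨w, hw⟩ := h3
        exact hbot (by rw [hw]; exact Ideal.bot_mul w)
      have hprime : Prime 𝔯 := Ideal.prime_of_isPrime h0 h2
      rw [← hpk] at h3
      obtain ⟨i, -, hi⟩ := (Prime.dvd_finsetProd_iff hprime _).1 h3
      have hi' : 𝔯 ∣ 𝔭 i := hprime.dvd_of_dvd_pow hi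
      exact ⟨i, ((hd.isMaximal i).eq_of_le h2.ne_top (Ideal.dvd_iff_le.1 hi')).symm⟩
    have htop : (⊤ : Ideal (𝓞 K)) * 𝔮 ≠ ⊤ := by
      intro h0
      obtain ⟨i⟩ : Nonempty (InfinitePlace K) := inferInstance
      refine (hd.isPrime i).ne_top (top_le_iff.1 ?_)
      rw [← h0, h𝔮, ← hd.prod_eq]
      refine Ideal.mul_le_right.trans ((Ideal.pow_le_self (by omega)).trans ?_)
      exact Ideal.dvd_iff_le.1 (Finset.dvd_prod_of_mem 𝔭 (Finset.mem_univ i))
    have hcop : IsCoprime (⊤ : Ideal (𝓞 K)) 𝔮 := by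
      rw [← Ideal.one_eq_top]
      exact isCoprime_one_left
    have hp0 : (0 : ℝ) < p := by exact_mod_cast hd.hp.pos
    have hsum : ∑ᶠ 𝔯 ∈ Pool.Agent.N786.PD 𝔮, (1 / (Ideal.absNorm 𝔯 : ℝ)) ≤ 1 / 4 := by
      have h1 : Pool.Agent.N786.PD 𝔮 = ((Finset.univ.image 𝔭 : Finset (Ideal (𝓞 K))) :
          Set (Ideal (𝓞 K))) := by
        ext 𝔯
        simp only [Finset.coe_image, Finset.coe_univ, Set.image_univ, Set.mem_range]
        constructor
        · rintro ⟨h2, h3⟩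
          obtain ⟨i, hi⟩ := hpr 𝔯 h2 h3
          exact ⟨i, hi.symm⟩
        · rintro ⟨i, rfl⟩
          refine ⟨hd.isPrime i, ?_⟩
          rw [← hpk]
          exact (dvd_pow_self (𝔭 i) (by omega : k ≠ 0)).trans
            (Finset.dvd_prod_of_mem (fun j => 𝔭 j ^ k) (Finset.mem_univ i))
      rw [h1, finsum_mem_coe_finset, Finset.sum_image (fun i _ j _ hij => hd.inj hij)]
      have h2 : ∑ i, (1 / (Ideal.absNorm (𝔭 i) : ℝ)) = Module.finrank ℚ K * (1 / p) := by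
        rw [Finset.sum_congr rfl fun i _ => by rw [hd.norm i], Finset.sum_const, Finset.card_univ,
          hd.card, nsmul_eq_mul]
      rw [h2]
      have h3 : (4 : ℝ) * Module.finrank ℚ K ≤ p := by exact_mod_cast hp
      rw [mul_one_div, div_le_div_iff₀ hp0 (by norm_num)]
      linarith
    obtain ⟨h1, h2⟩ := H ⊤ 𝔮 hcop htop hbot V hV hsum
    rw [family_eq]
    refine ⟨h1, ?_⟩
    have hV0 : 0 < V := by linarith
    have hn : 0 < Module.finrank ℚ K := Module.finrank_pos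
    have h3 : V ^ Module.finrank ℚ K = V ^ (Module.finrank ℚ K - 1) * V := by
      rw [← pow_succ]
      congr 1
      omega
    have h4 : (Ideal.absNorm 𝔮 : ℝ) = (p : ℝ) ^ (Module.finrank ℚ K * k) := by
      rw [← hpk, map_prod, Finset.prod_congr rfl fun i _ => (hd.deg1 i).norm_pow k,
        Finset.prod_const, Finset.card_univ, hd.card, ← pow_mul, mul_comm]
      push_cast
      rfl
    rw [h3, h4] at h2
    refine le_of_mul_le_mul_right ?_ hV0
    calc c * (p : ℝ) ^ (Module.finrank ℚ K * k) * V ^ (Module.finrank ℚ K - 1) * V =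
        c * ((p : ℝ) ^ (Module.finrank ℚ K * k) * (V ^ (Module.finrank ℚ K - 1) * V)) := by ring
      _ ≤ _ := h2

end Pool.Agent.J4H31.Old.SubWeylTwistsEveryDegree
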